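import Mathlib

/-!
# Counting connected sets in graphs of bounded degree
-/

set_option autoImplicit false

namespace Pool.Agent.V11262.AL

variable {V : Type} [DecidableEq V] (nb : V → Finset V)

/-- steps inside `Q` -/
def ins (Q : Finset V) (u v : V) : Prop := v ∈ nb u ∧ u ∈ Q ∧ v ∈ Q

/-- every element of `Q` is reached from `o` inside `Q` -/
def Con (o : V) (Q : Finset V) : Prop := o ∈ Q ∧ ∀ b ∈ Q, Relation.ReflTransGen (ins nb Q) o b

/-- the walks with `k` steps from `o`, without the first vertex -/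
def walks : ℕ → V → Finset (List V)
  | 0, _ => {[]}
  | k + 1, o => (nb o).biUnion fun Q => (walks k Q).image fun l => Q :: l

variable {Δ : ℕ}

lemma card_walks (hΔ : ∀ v, (nb v).card ≤ Δ) (k : ℕ) (o : V) : (walks nb k o).card ≤ Δ ^ k := by
  induction k generalizing o with
  | zero => simp [walks]
  | succ k ih =>
    rw [walks]
    refine le_trans (Finset.card_biUnion_le_card_mul _ _ (Δ ^ k) ?_) ?_
    · intro Q _
      exact le_trans Finset.card_image_le (ih Q)
    · rw [pow_succ, mul_comm (Δ ^ k)]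
      exact Nat.mul_le_mul_right _ (hΔ o)

lemma mem_walks (l : List V) (o : V) (h : List.IsChain (fun u v => v ∈ nb u) (o :: l)) :
    l ∈ walks nb l.length o := by
  induction l generalizing o with
  | nil => simp [walks]
  | cons Q l ih =>
    rw [List.length_cons, walks]
    rw [List.isChain_cons_cons] at h
    simp only [Finset.mem_biUnion, Finset.mem_image]
    exact ⟨Q, h.1, l, ih Q h.2, rfl⟩

lemma exists_step {Γ S : Finset V} {o Q : V} (ho : o ∈ S) (hQ : Q ∉ S)
    (h : Relation.ReflTransGen (ins nb Γ) o Q) : ∃ P R, P ∈ S ∧ R ∉ S ∧ R ∈ Γ ∧ R ∈ nb P := by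
  induction h with
  | refl => exact absurd ho hQ
  | tail _ hst ih =>
    rename_i b c _
    by_cases hb : b ∈ S
    · exact ⟨b, c, hb, hQ, hst.2.2, hst.1⟩
    · exact ih hb

lemma insert_chain (hsym : ∀ u v, v ∈ nb u → u ∈ nb v) (s t : List V) (P R : V)
    (h : List.IsChain (fun u v => v ∈ nb u) (s ++ P :: t))
    (hR : R ∈ nb P) : List.IsChain (fun u v => v ∈ nb u) (s ++ P :: R :: P :: t) := by
  rw [List.isChain_append] at h ⊢
  refine ⟨h.1, ?_, ?_⟩
  · rw [List.isChain_cons_cons, List.isChain_cons_cons]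
    exact ⟨hR, hsym _ _ hR, h.2.1⟩
  · intro x hx y hy
    exact h.2.2 x hx y (by simpa using hy)

lemma exists_walk (hsym : ∀ u v, v ∈ nb u → u ∈ nb v) {o : V} {Γ : Finset V} (h : Con nb o Γ)
    (k : ℕ) (hk : k + 1 ≤ Γ.card) :
    ∃ l : List V, List.IsChain (fun u v => v ∈ nb u) (o :: l) ∧ (o :: l).toFinset ⊆ Γ ∧
      (o :: l).toFinset.card = k + 1 ∧ l.length = 2 * k := by
  induction k with
  | zero =>
    refine ⟨[], by simp, ?_, by simp, by simp⟩
    simpa using h.1
  | succ k ih =>
    obtain ⟨l, h1, h2, h3, h4⟩ := ih (by omega)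
    have hlt : (o :: l).toFinset.card < Γ.card := by omega
    obtain ⟨Q, hQ, hQn⟩ := Finset.exists_mem_notMem_of_card_lt_card hlt
    obtain ⟨P, R, hP, hR, hRΓ, hadj⟩ :=
      exists_step nb (S := (o :: l).toFinset) (by simp) hQn (h.2 Q hQ)
    rw [List.mem_toFinset] at hP
    obtain ⟨s, t, hst⟩ := List.append_of_mem hP
    have h5 := insert_chain nb hsym s t P R (hst ▸ h1) hadj
    obtain ⟨l', hl'⟩ : ∃ l', s ++ P :: R :: P :: t = o :: l' := by
      cases s with
      | nil =>
        have : o = P := by simpa using (List.cons_eq_cons.1 hst).1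
        exact ⟨R :: P :: t, by rw [this]; rfl⟩
      | cons a s =>
        have : o = a := by simpa using (List.cons_eq_cons.1 hst).1
        exact ⟨s ++ P :: R :: P :: t, by rw [this]; rfl⟩
    have hset : (o :: l').toFinset = insert R (o :: l).toFinset := by
      rw [← hl', hst]
      ext x
      simp only [List.mem_toFinset, List.mem_append, List.mem_cons, Finset.mem_insert]
      tauto
    refine ⟨l', hl' ▸ h5, ?_, ?_, ?_⟩
    · rw [hset]
      exact Finset.insert_subset hRΓ h2
    · rw [hset, Finset.card_insert_of_notMem hR, h3]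
    · have e1 : (s ++ P :: R :: P :: t).length = (o :: l').length := by rw [hl']
      have e2 : (o :: l).length = (s ++ P :: t).length := by rw [hst]
      simp only [List.length_append, List.length_cons] at e1 e2
      omega

/-- a finite set which contains all connected sets with `n + 1` elements through `o` -/
def ani (o : V) (n : ℕ) : Finset (Finset V) :=
  (walks nb (2 * n) o).image fun l => (o :: l).toFinset

lemma card_ani (hΔ : ∀ v, (nb v).card ≤ Δ) (o : V) (n : ℕ) :
    (ani nb o n).card ≤ Δ ^ (2 * n) :=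
  Finset.card_image_le.trans (card_walks nb hΔ _ _)

/-- every connected set contains a member of `ani` -/
lemma exists_ani (hsym : ∀ u v, v ∈ nb u → u ∈ nb v) {o : V} {n : ℕ} {Q : Finset V}
    (h : Con nb o Q) (hn : n + 1 ≤ Q.card) :
    ∃ Q' ∈ ani nb o n, Q' ⊆ Q ∧ Q'.card = n + 1 := by
  obtain ⟨l, h1, h2, h3, h4⟩ := exists_walk nb hsym h n hn
  refine ⟨(o :: l).toFinset, ?_, h2, h3⟩
  unfold ani
  rw [Finset.mem_image]
  refine ⟨l, ?_, rfl⟩
  rw [← h4]
  exact mem_walks nb l o h1

end Pool.Agent.V11262.AL
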